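import Mathlib

/-!
# Squad SGB: the subgroup barrier (MP_589914_co)

Definitions.  `H` finite abelian group, `S T : ι → AddSubgroup H` with `S i ⊓ T i = ⊥`.
-/

set_option autoImplicit false

open Finset

namespace Pool.Agent.SGB

universe u

/-- the cardinality of a subgroup as a real number -/
noncomputable def cd {H : Type u} [AddCommGroup H] (A : AddSubgroup H) : ℝ := (Nat.card A : ℝ)

/-- the order of the group as a real number -/
noncomputable def nn (H : Type u) : ℝ := (Nat.card H : ℝ)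

/-- `k_ij = |S_i ∩ T_j| |S_j ∩ T_i|` -/
noncomputable def kk {H : Type u} [AddCommGroup H] {ι : Type} (S T : ι → AddSubgroup H)
    (i j : ι) : ℝ := cd (S i ⊓ T j) * cd (S j ⊓ T i)

/-- `t_ij = |S_i ∩ S_j| |T_i ∩ T_j|` -/
noncomputable def tt {H : Type u} [AddCommGroup H] {ι : Type} (S T : ι → AddSubgroup H)
    (i j : ι) : ℝ := cd (S i ⊓ S j) * cd (T i ⊓ T j)

/-- `Z_kh = (S_k ∩ S_h) + (S_k ∩ T_h)`, a subgroup of `S_k` -/
def zz {H : Type u} [AddCommGroup H] {ι : Type} (S T : ι → AddSubgroup H)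
    (k h : ι) : AddSubgroup H := (S k ⊓ S h) ⊔ (S k ⊓ T h)

/-- the weight `u_k = |S_k|^(-1/2)` -/
noncomputable def uu {H : Type u} [AddCommGroup H] {ι : Type} (S : ι → AddSubgroup H)
    (k : ι) : ℝ := 1 / Real.sqrt (cd (S k))

/-- `p_kl = u_k u_l |S_k ∩ S_l|` -/
noncomputable def pp {H : Type u} [AddCommGroup H] {ι : Type} (S : ι → AddSubgroup H)
    (k l : ι) : ℝ := uu S k * uu S l * cd (S k ⊓ S l)

/-- the number of representations of `x` in `A + B` -/
def nr {H : Type u} [AddCommGroup H] [DecidableEq H] (A B : Finset H) (x : H) : ℕ :=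
  ((A ×ˢ B).filter fun p => p.1 + p.2 = x).card

end Pool.Agent.SGB
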