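import Pool.Agent.SGB.Defs

/-!
# Squad SGB: statements with complete proofs in the docstrings

Goal: `MP_589914_co.SubgroupBarrier`: in every finite abelian group `H`, `|H| = N`, a family
`A_i, B_i` (`i < n`) with the one-sided simultaneous double product property whose members lie in
cosets of subgroups `S_i, T_i` with `S_i ∩ T_i = 0` satisfies
`(∑ |A_i||B_i|)² ≤ 2 n N^(5/2 - c)`, `c = 10^(-11)`.
-/

set_option autoImplicit false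

open Finset
open scoped Pointwise

namespace Pool.Agent.SGB

universe u

/-! ## Part 1: subgroups -/

/-- **CRD** (30 - 60 lines).  (a) `|A ∩ B| |A + B| = |A| |B|`; (b) if `S ∩ T = 0` then
`|A ∩ S| |A ∩ T| ≤ |A|`; (c) monotone, (d) `1 ≤ |A| ≤ N`, (e) `|0| = 1`.
Proof.  (a) second isomorphism theorem (`QuotientAddGroup.quotientInfEquivSumNormalQuotient`), or
`AddSubgroup.relIndex_sup_right`/`relIndex_inf` + `AddSubgroup.relIndex_mul_card`, or: the map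
`A × B → A ⊔ B`, `(a, b) ↦ a + b` is surjective with all fibres of size `|A ⊓ B|`.
(b) apply (a) to `A ⊓ S` and `A ⊓ T`, whose intersection is `⊥` and whose sum is `≤ A`. -/
def CRDStmt : Prop :=
  ∀ (H : Type u) [AddCommGroup H] [Finite H],
    (∀ A B : AddSubgroup H, cd (A ⊓ B) * cd (A ⊔ B) = cd A * cd B) ∧
    (∀ A S T : AddSubgroup H, S ⊓ T = ⊥ → cd (A ⊓ S) * cd (A ⊓ T) ≤ cd A) ∧
    (∀ A B : AddSubgroup H, A ≤ B → cd A ≤ cd B) ∧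
    (∀ A : AddSubgroup H, 1 ≤ cd A ∧ cd A ≤ nn H) ∧ cd (⊥ : AddSubgroup H) = 1

/-- **HNI** (150 lines, the Harder-Narasimhan inequality).  Uses CRD.
For subgroups `S_a, T_a` (`a < m`) with `S_a ∩ T_a = 0`:
`∑_{a,b} log |S_a ∩ T_b| ≤ (m²/4) log |H|`.
Proof.  For a subgroup `F` put `ℓ(F) = log |F|`, `φ(F) = ∑_a log |S_a ∩ F|`,
`ψ(F) = ∑_b log |T_b ∩ F|`.  Facts: `ℓ(F) + ℓ(G) = ℓ(F ⊓ G) + ℓ(F ⊔ G)`; `φ` is supermodular,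
`φ(F) + φ(G) ≤ φ(F ⊓ G) + φ(F ⊔ G)` (termwise: `(S ⊓ F) ⊓ (S ⊓ G) = S ⊓ (F ⊓ G)` and
`(S ⊓ F) ⊔ (S ⊓ G) ≤ S ⊓ (F ⊔ G)`); `φ(F) + ψ(F) ≤ m ℓ(F)`; `φ, ψ, ℓ` are monotone, `0` at `⊥`.
CLAIM (★): let `s : ℝ`, `s ≥ 0`, and `G` a subgroup with `φ(F) - s ℓ(F) ≤ φ(G) - s ℓ(G) =: P`
for all `F ≤ G`.  Then `∑_b φ(T_b ⊓ G) ≤ s ψ(G) + (m - s) P - P²/ℓ(G)` (division by `0` is `0`).
Proof of (★) by strong induction on `Nat.card G`.  If `G = ⊥` both sides are `0`.  Otherwise let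
`s'` be the minimum of `(φ(G) - φ(F))/(ℓ(G) - ℓ(F))` over the (finitely many, `⊥` is one) subgroups
`F < G`, attained at `F'`; `s ≤ s'`.  Put `P' = φ(G) - s' ℓ(G)`.  For all `F ≤ G`:
`φ(F) - s' ℓ(F) ≤ P'`, with equality at `F'`.  For `Y ≤ G`:
`φ(Y) ≤ φ(Y ⊓ F') + φ(Y ⊔ F') - φ(F') ≤ φ(Y ⊓ F') + (P' + s' ℓ(Y ⊔ F')) - (P' + s' ℓ(F'))
= φ(Y ⊓ F') + s' (ℓ(Y) - ℓ(Y ⊓ F'))`.  Take `Y = T_b ⊓ G`, so `Y ⊓ F' = T_b ⊓ F'`, and sum over `b`: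
`∑_b φ(T_b ⊓ G) ≤ ∑_b φ(T_b ⊓ F') + s' (ψ(G) - ψ(F'))`, and by induction (for `F'`, slope `s'`)
`∑_b φ(T_b ⊓ F') ≤ s' ψ(F') + (m - s') P' - P'²/ℓ(F')`.  Total:
`∑_b φ(T_b ⊓ G) ≤ s' ψ(G) + (m - s') P' - P'²/ℓ(F')`.  With `P = P' + (s' - s) ℓ(G)` the difference
(wanted right side) - (this bound) is
`(s' - s) (m ℓ(G) - ψ(G) - P' - s' ℓ(G)) + P'² (1/ℓ(F') - 1/ℓ(G))
= (s' - s) (m ℓ(G) - ψ(G) - φ(G)) + P'² (1/ℓ(F') - 1/ℓ(G)) ≥ 0`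
(if `F' = ⊥` then `P' = 0`; `ℓ(G) > 0`).
CONCLUSION: `s = 0`, `G = ⊤` (monotonicity): `∑_b φ(T_b) ≤ m φ - φ²/ℓ ≤ m² ℓ/4`, `φ = φ(⊤)`,
`ℓ = log |H|` (if `ℓ = 0` all terms are `0`). -/
def HNIStmt : Prop :=
  ∀ (H : Type u) [AddCommGroup H] [Finite H] (m : ℕ) (S T : Fin m → AddSubgroup H),
    (∀ a, S a ⊓ T a = ⊥) →
    ∑ a, ∑ b, Real.log (cd (S a ⊓ T b)) ≤ (m : ℝ) ^ 2 / 4 * Real.log (nn H)

/-- **QUO** (60 lines).  Uses HNI.  If moreover `X ≤ S_a` for all `a` (and `1 ≤ m`), then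
`∑_{a,b} log |S_a ∩ T_b| ≤ (m²/4) (log |H| - log |X|)`.
Proof.  Apply HNI to `H ⧸ X` and the images `S̄_a = S_a.map π`, `T̄_a = T_a.map π`.
`S̄_a ⊓ T̄_a = ⊥`: if `π s = π t`, `s ∈ S_a`, `t ∈ T_a`, then `s - t ∈ X ≤ S_a`, so
`t ∈ S_a ⊓ T_a = ⊥`.  `π` is injective on `S_a ⊓ T_b` (its kernel there is
`X ⊓ T_b ≤ S_b ⊓ T_b = ⊥`) and maps it into `S̄_a ⊓ T̄_b`, so `|S_a ⊓ T_b| ≤ |S̄_a ⊓ T̄_b|`.
`|H ⧸ X| |X| = |H|` (`AddSubgroup.card_eq_card_quotient_mul_card_addSubgroup`). -/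
def QUOStmt : Prop :=
  ∀ (H : Type u) [AddCommGroup H] [Finite H] (m : ℕ) (S T : Fin m → AddSubgroup H)
    (X : AddSubgroup H), 1 ≤ m → (∀ a, S a ⊓ T a = ⊥) → (∀ a, X ≤ S a) →
    ∑ a, ∑ b, Real.log (cd (S a ⊓ T b)) ≤
      (m : ℝ) ^ 2 / 4 * (Real.log (nn H) - Real.log (cd X))

/-- **ITS** (60 lines).  Uses QUO.  Let `m ≥ 1`, `B > 0`, `N ≤ B k_ab` for all `a ≠ b` and
`X ≤ S_a` for all `a`.  Then `log |X| ≤ (2/m - 1) log N + 2 (1 - 1/m) log B`.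
Proof.  `∑_{a,b} log |S_a ∩ T_b| = (1/2) ∑_{a,b} log k_ab` (swap `a` and `b` in one half) and
`k_aa = 1`, `log k_ab ≥ log N - log B` for `a ≠ b`, so the left side is
`≥ (1/2) m (m-1) (log N - log B)`.  QUO: `(1/2) m (m-1) (log N - log B) ≤ (m²/4)(log N - log |X|)`;
multiply by `4/m²`. -/
def ITSStmt : Prop :=
  ∀ (H : Type u) [AddCommGroup H] [Finite H] (m : ℕ) (S T : Fin m → AddSubgroup H)
    (X : AddSubgroup H) (B : ℝ), 1 ≤ m → 0 < B → (∀ a, S a ⊓ T a = ⊥) → (∀ a, X ≤ S a) →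
    (∀ a b, a ≠ b → nn H ≤ B * kk S T a b) →
    Real.log (cd X) ≤ (2 / m - 1) * Real.log (nn H) + 2 * (1 - 1 / m) * Real.log B

/-- **PIN** (60 lines).  Uses CRD.  Pair inequalities, `S_i ∩ T_i = 0`, `k = k_ij`, `t = t_ij`:
(a) `|S_i ∩ S_j|² k ≤ |S_i| |S_j|`; (b) `k t ≤ |S_i| |T_i| ≤ N`;
(c) `t² k |S_i| |S_j| ≤ |S_i ∩ S_j|² N²`; (d) `|S_i| k t ≤ |Z_ij| N`; (e) `k_ij = k_ji`,
`t_ij = t_ji`, `1 ≤ k, t`.
Proof.  CRD (b) with `A = S_i, S_j, T_i, T_j` and the pair `S_j, T_j` resp. `S_i, T_i`: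
`|S_i ∩ S_j| |S_i ∩ T_j| ≤ |S_i|`, `|S_j ∩ S_i| |S_j ∩ T_i| ≤ |S_j|` give (a);
`|S_i ∩ S_j| |S_i ∩ T_j| ≤ |S_i|`, `|T_i ∩ S_j| |T_i ∩ T_j| ≤ |T_i|` give (b), and
`|S_i| |T_i| ≤ N` is CRD (b) with `A = ⊤`; (c): in the same way as (a), `|T_i ∩ T_j|² k ≤
|T_i| |T_j|`, so `t² k |S_i||S_j| = |S_i ∩ S_j|² (|T_i ∩ T_j|² k) |S_i| |S_j| ≤
|S_i ∩ S_j|² |T_i||T_j||S_i||S_j| ≤ |S_i ∩ S_j|² N²`; (d): `|Z_ij| = |S_i ∩ S_j| |S_i ∩ T_j|`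
(CRD (a), the two have intersection `≤ S_j ⊓ T_j = ⊥`), so
`k t = |Z_ij| |T_i ∩ S_j| |T_i ∩ T_j| ≤ |Z_ij| |T_i|` and `|S_i| |T_i| ≤ N`. -/
def PINStmt : Prop :=
  ∀ (H : Type u) [AddCommGroup H] [Finite H] (ι : Type) (S T : ι → AddSubgroup H),
    (∀ i, S i ⊓ T i = ⊥) → ∀ i j,
    cd (S i ⊓ S j) ^ 2 * kk S T i j ≤ cd (S i) * cd (S j) ∧
    kk S T i j * tt S T i j ≤ cd (S i) * cd (T i) ∧
    cd (S i) * cd (T i) ≤ nn H ∧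
    tt S T i j ^ 2 * kk S T i j * (cd (S i) * cd (S j)) ≤ cd (S i ⊓ S j) ^ 2 * nn H ^ 2 ∧
    cd (S i) * (kk S T i j * tt S T i j) ≤ cd (zz S T i j) * nn H ∧
    kk S T i j = kk S T j i ∧ tt S T i j = tt S T j i ∧ 1 ≤ kk S T i j ∧ 1 ≤ tt S T i j ∧
    zz S T i j ≤ S i

/-- **CLO** (50 lines).  Uses CRD.  If `Z_1 ≤ S_1` and `Z_2 ≤ S_2` then
`|S_1 ∩ S_2| |Z_1| |Z_2| ≤ |Z_1 ∩ Z_2| |S_1| |S_2|`.
Proof.  If `A, Y ≤ S` then `|A| |Y| = |A ⊓ Y| |A ⊔ Y| ≤ |A ⊓ Y| |S|`.  Take `S = S_1`,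
`A = Z_1`, `Y = S_1 ⊓ S_2`: `|Z_1| |S_1 ⊓ S_2| ≤ |Z_1 ⊓ S_2| |S_1|` (`Z_1 ⊓ (S_1 ⊓ S_2) =
Z_1 ⊓ S_2`).  Then `S = S_2`, `A = Z_2`, `Y = Z_1 ⊓ S_2`: `|Z_2| |Z_1 ⊓ S_2| ≤
|Z_1 ⊓ Z_2| |S_2|`.  Multiply. -/
def CLOStmt : Prop :=
  ∀ (H : Type u) [AddCommGroup H] [Finite H] (S₁ S₂ Z₁ Z₂ : AddSubgroup H),
    Z₁ ≤ S₁ → Z₂ ≤ S₂ →
    cd (S₁ ⊓ S₂) * (cd Z₁ * cd Z₂) ≤ cd (Z₁ ⊓ Z₂) * (cd S₁ * cd S₂)

open Classical in
/-- **CNT** (60 lines).  Uses nothing (CRD for `cd` only).  If every `x` has at most `D` classes `h`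
with `x ∈ S_h` and `z - x ∈ T_h`, then for classes `k_a` (`a < m`, `m ≥ 1`) the number of `h` with
`z ∈ Z_{k_a h}` for all `a` is at most `|⋂ S_{k_a}| D`.
Proof.  For such `h` and every `a` there is `x_a ∈ S_{k_a} ⊓ S_h` with `z - x_a ∈ S_{k_a} ⊓ T_h`
(`AddSubgroup.mem_sup`).  `x_a - x_b ∈ S_h ⊓ T_h = ⊥`, so all `x_a` are equal to one `x(h)`, which
lies in `X = ⨅ S_{k_a}`, with `x(h) ∈ S_h`, `z - x(h) ∈ T_h`.  So the number of `h` is at most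
`∑_{x ∈ X} #{h : x ∈ S_h, z - x ∈ T_h} ≤ |X| D`. -/
def CNTStmt : Prop :=
  ∀ (H : Type u) [AddCommGroup H] [Finite H] (ι : Type) [Fintype ι] (S T : ι → AddSubgroup H),
    (∀ i, S i ⊓ T i = ⊥) → ∀ (m : ℕ) (k : Fin m → ι) (z : H) (D : ℝ), 1 ≤ m →
    (∀ x : H, ((univ.filter fun h : ι => x ∈ S h ∧ z - x ∈ T h).card : ℝ) ≤ D) →
    ((univ.filter fun h : ι => ∀ a, z ∈ zz S T (k a) h).card : ℝ) ≤ cd (⨅ a, S (k a)) * D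

/-! ## Part 2: finite sums -/

/-- **TUP** (40 lines).  For `a ≠ b` in `Fin m`:
`∑_{k : Fin m → ι} (∏_c f(k_c)) F(k_a, k_b) = (∑ f)^(m-2) ∑_{x,y} f(x) f(y) F(x,y)`.
Proof.  `F(k_a,k_b) = ∑_{x,y} F(x,y) [k_a = x] [k_b = y]`; for fixed `x, y`,
`∑_k ∏_c f(k_c) e_c(k_c) = ∏_c ∑_j f(j) e_c(j)` (`Finset.prod_univ_sum`, `Fintype.piFinset_univ`)
with `e_a = [· = x]`, `e_b = [· = y]`, `e_c = 1` otherwise. -/
def TUPStmt : Prop :=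
  ∀ (ι : Type) [Fintype ι] (m : ℕ) (a b : Fin m) (f : ι → ℝ) (F : ι → ι → ℝ), a ≠ b →
    ∑ k : Fin m → ι, (∏ c, f (k c)) * F (k a) (k b) =
      (∑ x, f x) ^ (m - 2) * ∑ x, ∑ y, f x * f y * F x y

open Classical in
/-- **SEL** (150 lines).  Uses TUP.  Abstract selection lemma.  `Ω` points, `ι` classes,
`R z k`: 'z lies in `S_k`', `Z z k h → R z k`: 'z lies in `Z_kh`', `Bd k l`: bad pairs, `P`: bad
points.
Proof.  `n = |ι|`, `f(z,h) = ∑_{k : Z z k h} u_k ≤ Q(z)`, `x = (f/Q)² ∈ [0,1]` (`0` if `Q = 0`).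
Power mean (`Real.inner_le_nnorm_mul_nnorm` is not needed, use
`Real.pow_arith_mean_le_arith_mean_pow` with weights `Q(z)²/(nM)` on `Ω × ι`):
`η^q ≤ (∑ Q²/(nM) x)^q ≤ ∑ Q²/(nM) x^q`, i.e. `η^q n M ≤ ∑_{z,h} Q² x^q`.
For `Q(z) > 0`: `Q² x^q = Q²/Q^(2q) f^(2q)` and
`f^(2q) = ∑_{k : Fin (2q) → ι} ∏_a (if Z z (k a) h then u (k a) else 0)`
(`Finset.sum_pow'`/`Finset.prod_univ_sum`) `= ∑_k (∏ u(k a)) [∀ a, Z z (k a) h]`.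
With `c(z,k) = #{h : ∀ a, Z z (k a) h} ≤ n` (zero unless `R z (k a)` for all `a`) and
`W(z,k) = Q²/Q^(2q) ∏_a (if R z (k a) then u(k a) else 0)`, `∑_k W(z,k) = Q(z)²`:
`η^q n M ≤ ∑_{z,k} W(z,k) c(z,k)`.
Suppose the conclusion fails: every `(z,k)` with `W > 0` has `P z`, or `Bd (k a) (k b)` for some
`a ≠ b`, or `c < η^q n/2`.  So `W c ≤ W η^q n/2 + n W [P z] + n ∑_{a≠b} W [Bd (k a) (k b)]`.
Sum over `(z,k)`: `≤ η^q n M/2 + n γ M + n (2q)² β M` (by TUP, for `a ≠ b`,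
`∑_k W [Bd (k a) (k b)] = Q²/Q^(2q) Q^(2q-2) ∑_{k,l} [Bd k l] [R z k] [R z l] u_k u_l`)
`≤ (3/4) η^q n M < η^q n M`, contradiction (`n > 0` as `M > 0`). -/
def SELStmt : Prop :=
  ∀ (Ω : Type u) [Fintype Ω] (ι : Type) [Fintype ι] (v : ι → ℝ) (R : Ω → ι → Prop)
    (Z : Ω → ι → ι → Prop) (Bd : ι → ι → Prop) (P : Ω → Prop) (q : ℕ) (η β γ M : ℝ),
    (∀ k, 0 < v k) → (∀ z k h, Z z k h → R z k) → 0 < η → 1 ≤ q → 0 < M →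
    M = ∑ z, (∑ k, if R z k then v k else 0) ^ 2 →
    η * Fintype.card ι * M ≤ ∑ z, ∑ h, (∑ k, if Z z k h then v k else 0) ^ 2 →
    (∑ z, ∑ k, ∑ l, if Bd k l ∧ R z k ∧ R z l then v k * v l else 0) ≤ β * M →
    (∑ z, if P z then (∑ k, if R z k then v k else 0) ^ 2 else 0) ≤ γ * M →
    (2 * q : ℝ) ^ 2 * β + γ ≤ η ^ q / 4 →
    ∃ z, ¬ P z ∧ ∃ k : Fin (2 * q) → ι, (∀ a, R z (k a)) ∧
      (∀ a b, a ≠ b → ¬ Bd (k a) (k b)) ∧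
      η ^ q / 2 * Fintype.card ι ≤ ((univ.filter fun h => ∀ a, Z z (k a) h).card : ℝ)

open Classical in
/-- **POP** (120 lines).  Uses ITS, TUP.  Popular elements.  Let `n = |ι| ≥ 1`, `κ > 0`, `B > 0`,
`E n²` a bound for the number of pairs with `B k_hl < N`, `r² E ≤ κ²/2`.  Then
`#{v : #{h : v ∈ S_h} ≥ κ n} κ^r/2 ≤ exp((2/r - 1) log N + 2 (1 - 1/r) log B)`.
Proof.  Let `v` be popular, `s = #{h : v ∈ S_h} ≥ κ n > 0`.  Call `h : Fin r → ι` good if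
`N ≤ B k_{h_a h_b}` for all `a ≠ b`.  The number of `h` with all `v ∈ S_{h_a}` is `s^r`; the number of
those which are not good is at most `∑_{a ≠ b} s^(r-2) #{(x,y) : v ∈ S_x, v ∈ S_y, B k_xy < N} ≤
r² s^(r-2) E n²` (TUP with `f = [v ∈ S_·]`; `r ≥ 2` here, for `r = 1` there is no pair)
`≤ r² E κ^(-2) s^r ≤ s^r/2`.  So at least `s^r/2 ≥ κ^r n^r/2` tuples are good and have
`v ∈ X_h = ⨅ S_{h_a}`.  Sum over the popular `v` and exchange: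
`#Pop κ^r n^r/2 ≤ ∑_{h good} |X_h| ≤ n^r exp(...)` by ITS (`S ∘ h`, `T ∘ h`, `X = X_h`;
`kk (S ∘ h) (T ∘ h) a b = kk S T (h a) (h b)`). -/
def POPStmt : Prop :=
  ∀ (H : Type u) [AddCommGroup H] [Fintype H] (ι : Type) [Fintype ι] [Nonempty ι]
    (S T : ι → AddSubgroup H), (∀ i, S i ⊓ T i = ⊥) →
    ∀ (r : ℕ) (κ B E : ℝ), 1 ≤ r → 0 < κ → 0 < B →
    ((univ.filter fun p : ι × ι => B * kk S T p.1 p.2 < nn H).card : ℝ) ≤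
      E * (Fintype.card ι : ℝ) ^ 2 →
    (r : ℝ) ^ 2 * E ≤ κ ^ 2 / 2 →
    ((univ.filter fun v : H =>
      κ * Fintype.card ι ≤ ((univ.filter fun h : ι => v ∈ S h).card : ℝ)).card : ℝ) *
        (κ ^ r / 2) ≤
      Real.exp ((2 / r - 1) * Real.log (nn H) + 2 * (1 - 1 / r) * Real.log B)

/-! ## Part 3: the three mass estimates -/

open Classical in
/-- **MAS** (30 lines).  `∑_z (∑_{k : z ∈ S_k} u_k)² = ∑_{k,l} p_kl`, and for a set of pairs `Bd`: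
`∑_z ∑_{k,l : Bd k l, z ∈ S_k, z ∈ S_l} u_k u_l = ∑_{k,l : Bd k l} p_kl`.
Proof.  Expand the square, exchange the sums, `#{z : z ∈ S_k ∧ z ∈ S_l} = |S_k ⊓ S_l|`. -/
def MASStmt : Prop :=
  ∀ (H : Type u) [AddCommGroup H] [Fintype H] (ι : Type) [Fintype ι] (S : ι → AddSubgroup H),
    (∑ z : H, (∑ k, if z ∈ S k then uu S k else 0) ^ 2 = ∑ k, ∑ l, pp S k l) ∧
    ∀ Bd : ι → ι → Prop,
      (∑ z : H, ∑ k, ∑ l, if Bd k l ∧ z ∈ S k ∧ z ∈ S l then uu S k * uu S l else 0) =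
        ∑ k, ∑ l, if Bd k l then pp S k l else 0

open Classical in
/-- **MNA** (120 lines).  Uses PIN, CLO, MAS is not needed.  `G > 0`.  Call `(k,h)` good if
`N ≤ G k_kh` and `N ≤ G t_kh`.  Suppose every `k` has at least `(3/4) n` good partners.  Then
(1) `∑_z ∑_h (∑_{k : z ∈ Z_kh} u_k)² ≥ (1/2) (N/G²)² n ∑_{k,l} p_kl`;
(2) `∑_{k,l} p_kl ≥ (3/4) n² (N/G)^(3/2)/N`; (3) if `n ≥ 1` and `|T_k| ≤ |S_k|` then
`N ≤ G |S_k|`.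
Proof.  (1) The left side is `∑_h ∑_{k,l} u_k u_l |Z_kh ⊓ Z_lh|`.  If `(k,h)`, `(l,h)` are good, PIN
(d) gives `|S_k| (N/G)² ≤ |Z_kh| N`, i.e. `|S_k| (N/G²) ≤ |Z_kh|`, the same for `l`, and CLO gives
`|Z_kh ⊓ Z_lh| ≥ |S_k ⊓ S_l| |Z_kh| |Z_lh|/(|S_k| |S_l|) ≥ |S_k ⊓ S_l| (N/G²)²`.  For each pair
`(k,l)` at least `n/2` classes `h` are good for both.  (2) for a good pair PIN (c) gives
`|S_k ⊓ S_l|² N² ≥ (N/G)³ |S_k| |S_l|`, i.e. `p_kl² ≥ (N/G)³/N²`; sum over the good pairs.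
(3) PIN (b): `(N/G)² ≤ k t ≤ |S_k| |T_k| ≤ |S_k|²` for a good partner. -/
def MNAStmt : Prop :=
  ∀ (H : Type u) [AddCommGroup H] [Fintype H] (ι : Type) [Fintype ι] (S T : ι → AddSubgroup H)
    (G : ℝ), (∀ i, S i ⊓ T i = ⊥) → 0 < G →
    (∀ k, 3 / 4 * (Fintype.card ι : ℝ) ≤
      ((univ.filter fun h => nn H ≤ G * kk S T k h ∧ nn H ≤ G * tt S T k h).card : ℝ)) →
    (1 / 2 * (nn H / G ^ 2) ^ 2 * Fintype.card ι * ∑ k, ∑ l, pp S k l ≤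
      ∑ z : H, ∑ h, (∑ k, if z ∈ zz S T k h then uu S k else 0) ^ 2) ∧
    (3 / 4 * (Fintype.card ι : ℝ) ^ 2 * (Real.sqrt ((nn H / G) ^ 3) / nn H) ≤
      ∑ k, ∑ l, pp S k l) ∧
    (∀ k, cd (T k) ≤ cd (S k) → nn H ≤ G * cd (S k))

open Classical in
/-- **MNB** (40 lines).  Uses PIN.  Bad pairs carry little mass: for `B > 0`
`∑_{k,l : B k_kl < N} p_kl ≤ (1/√(N B)) ∑_{k,l} N/k_kl`.
Proof.  PIN (a): `p_kl² ≤ 1/k_kl`.  If `B k_kl < N`, `w = N/k_kl > B`, then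
`p_kl ≤ √(w/N) = w/√(w N) ≤ w/√(B N)`. -/
def MNBStmt : Prop :=
  ∀ (H : Type u) [AddCommGroup H] [Finite H] (ι : Type) [Fintype ι] (S T : ι → AddSubgroup H)
    (B : ℝ), (∀ i, S i ⊓ T i = ⊥) → 0 < B →
    (∑ k, ∑ l, if B * kk S T k l < nn H then pp S k l else 0) ≤
      1 / Real.sqrt (nn H * B) * ∑ k, ∑ l, nn H / kk S T k l

open Classical in
/-- **MNC** (50 lines).  Bad points carry little mass.  Let `N ≤ G |S_k|` for all `k` and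
`PS, PT` finite sets.  Then `∑_{z ∈ PS + PT} (∑_{k : z ∈ S_k} u_k)² ≤ |PS| |PT| n² G/N`.
Proof.  `u_k ≤ √(G/N)`, so each term is `≤ n² G/N`; `|PS + PT| ≤ |PS| |PT|`. -/
def MNCStmt : Prop :=
  ∀ (H : Type u) [AddCommGroup H] [Fintype H] (ι : Type) [Fintype ι] (S : ι → AddSubgroup H)
    (G : ℝ) (PS PT : Finset H), 0 < G → (∀ k, nn H ≤ G * cd (S k)) →
    (∑ z : H, if z ∈ PS + PT then (∑ k, if z ∈ S k then uu S k else 0) ^ 2 else 0) ≤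
      PS.card * PT.card * ((Fintype.card ι : ℝ) ^ 2 * (G / nn H))

/-! ## Part 4: the contradiction -/

open Classical in
/-- **MNX** (120 lines).  Uses SEL, MAS, CNT, ITS, POP, MNA, MNB, MNC, PIN.  The main step with
abstract parameters: there is no family with the listed properties.
`n = |ι| ≥ 1`, `S_i ∩ T_i = 0`, `|T_i| ≤ |S_i|`; `w_kl = N/k_kl`, `w'_kl = N/t_kl`;
(h1) every `k` has at least `(3/4) n` partners `h` with `N ≤ G k_kh`, `N ≤ G t_kh`;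
(h2) `∑_{k,l} N/k_kl ≤ V n²`; parameters `q, r ≥ 1`, `κ, B, B', G, V, Y > 0`;
(h3) `r² V/B' ≤ κ²/2`;
(h4) `exp((2/r-1) log N + 2(1-1/r) log B') ≤ Y κ^r/2` (so there are at most `Y` popular elements);
(h5) with `η = (1/2)(N/G²)²`, `μ = (3/4) √((N/G)³)/N` (so `∑ p ≥ μ n²`):
`(2q)² V/(√(N B) μ) + Y² (G/N)/μ ≤ η^q/4`;
(h6) `κ exp((2/(2q) - 1) log N + 2(1 - 1/(2q)) log B) < η^q/2`.
Then `False`.
Proof.  `M = ∑ p_kl = ∑_z Q²` (MAS) `≥ μ n² > 0` (MNA (2)).  Popular sets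
`PS = {v : #{h : v ∈ S_h} ≥ κ n}`, `PT` the same for `T`: the number of pairs with
`B' k < N` is at most `V n²/B'` (Markov), so POP with `E = V/B'` and (h3), (h4) gives
`|PS| ≤ Y`; POP for the swapped family (`kk T S = kk S T` up to commutativity) gives `|PT| ≤ Y`.
SEL with `Ω = H`, `v = uu S`, `R z k = (z ∈ S_k)`, `Z z k h = (z ∈ Z_kh)`,
`Bd k l = (B k_kl < N)`, `P z = (z ∈ PS + PT)`, `η` as above (MNA (1)),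
`β M`: MAS + MNB: `≤ (1/√(N B)) V n² ≤ V/(√(N B) μ) M`;
`γ M`: MNC with MNA (3): `≤ Y² n² G/N ≤ Y² (G/N)/μ M`.  SEL gives `z ∉ PS + PT` and
`k : Fin (2q) → ι` with `z ∈ S_{k_a}`, `N ≤ B k_{k_a k_b}` for `a ≠ b` and
`η^q/2 n ≤ #{h : ∀ a, z ∈ Z_{k_a h}}`.  For every `x`: `#{h : x ∈ S_h ∧ z - x ∈ T_h} ≤ κ n`
(otherwise `x ∈ PS`, `z - x ∈ PT`, `z ∈ PS + PT`).  CNT with `D = κ n`:
`η^q/2 n ≤ |X| κ n`, `X = ⨅ S_{k_a}`, and ITS (`m = 2q`) gives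
`|X| ≤ exp((2/(2q) - 1) log N + 2 (1 - 1/(2q)) log B)`: contradiction with (h6). -/
def MNXStmt : Prop :=
  ∀ (H : Type u) [AddCommGroup H] [Fintype H] (ι : Type) [Fintype ι] [Nonempty ι]
    (S T : ι → AddSubgroup H) (q r : ℕ) (κ B B' G V Y η μ : ℝ),
    (∀ i, S i ⊓ T i = ⊥) → (∀ i, cd (T i) ≤ cd (S i)) →
    1 ≤ q → 1 ≤ r → 0 < κ → 0 < B → 0 < B' → 0 < G → 0 < V → 0 < Y →
    (∀ k, 3 / 4 * (Fintype.card ι : ℝ) ≤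
      ((univ.filter fun h => nn H ≤ G * kk S T k h ∧ nn H ≤ G * tt S T k h).card : ℝ)) →
    (∑ k, ∑ l, nn H / kk S T k l ≤ V * (Fintype.card ι : ℝ) ^ 2) →
    (r : ℝ) ^ 2 * (V / B') ≤ κ ^ 2 / 2 →
    Real.exp ((2 / r - 1) * Real.log (nn H) + 2 * (1 - 1 / r) * Real.log B') ≤ Y * (κ ^ r / 2) →
    η = 1 / 2 * (nn H / G ^ 2) ^ 2 → μ = 3 / 4 * (Real.sqrt ((nn H / G) ^ 3) / nn H) →
    (2 * q : ℝ) ^ 2 * (V / (Real.sqrt (nn H * B) * μ)) + Y ^ 2 * (G / nn H) / μ ≤ η ^ q / 4 →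
    κ * Real.exp ((2 / (2 * q) - 1) * Real.log (nn H) + 2 * (1 - 1 / (2 * q)) * Real.log B) <
      η ^ q / 2 →
    False

/-- **MNN** (100 lines, numbers).  Uses MNX.  Let `L = log N`, `c = 10^(-11)`, `log 2 ≤ c L`.  There
is no family with `n ≥ 1`, `S_i ∩ T_i = 0`, `|T_i| ≤ |S_i|` and
`∑_l (N/k_kl + N/t_kl) ≤ 16 n exp((1/2 + c) L)` for all `k`.
Proof.  MNX with `q = 2000`, `r = 20`, `κ = exp(-L/1000)`, `V = 16 exp((1/2 + c) L)`,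
`G = exp((1/2 + a) L)`, `a = 10^(-9)`, `B' = exp((1/2 + 1/400) L)`, `B = exp((1/2 + 1/8000) L)`,
`Y = exp(L/12)`.  Every constant is absorbed by `2 ≤ exp(c L)`.
(h1) the partners `h` of `k` with `N/k > G` or `N/t > G` are at most
`16 n exp((1/2+c)L)/G = 16 n exp((c - a) L) ≤ n/4` as `64 ≤ exp(6 c L)`, `7c ≤ a`.
(h3) `400 · 16 exp((c - 1/400) L) ≤ exp(-L/500)/2` as `12800 ≤ 2^14 ≤ exp(14 c L)`,
`15 c ≤ 1/2000`.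
(h4) left exponent: `(2/20 - 1) + 2 (19/20)(1/2 + 1/400) = -0.9 + 0.95 + 0.00475 = 0.05475`; right:
`1/12 - 20/1000 - c ≥ 0.0633 - c`.
(h5) `η = (1/2) exp(-4 a L)`, `μ = (3/4) exp(-(1/4 + 3a/2) L)` (`(N/G)³ = exp(3 (1/2 - a) L)`),
`η^q/4 = 2^(-2002) exp(-8000 a L) ≥ exp(-(2002 c + 8 · 10^(-6)) L)`;
first term: `4000² · 16 (4/3) exp((1/2 + c - 3/4 - 1/16000 + 1/4 + 3a/2) L)
≤ exp((29 c + 3a/2 - 1/16000 + c) L)`; second: `(4/3) exp((1/6 + (1/2 + a) - 1 + 1/4 + 3a/2) L) ≤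
exp((-1/12 + 4a) L)`; each is at most half of `η^q/4`.
(h6) `κ |X|`-exponent: `-1/1000 + (1/2000)·... `: `(2/4000 - 1) + 2 (1 - 1/4000)(1/2 + 1/8000) =
1/4000 + (1/4000)(1 - 1/4000) ≤ 1/2000`, total `≤ -1/2000`, and
`η^q/2 ≥ exp(-(2001 c + 8 · 10^(-6)) L) > exp(-L/2000)`. -/
def MNNStmt : Prop :=
  ∀ (H : Type u) [AddCommGroup H] [Fintype H] (ι : Type) [Fintype ι] [Nonempty ι]
    (S T : ι → AddSubgroup H),
    (∀ i, S i ⊓ T i = ⊥) → (∀ i, cd (T i) ≤ cd (S i)) →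
    Real.log 2 ≤ 1 / 10 ^ 11 * Real.log (nn H) →
    (∀ k, ∑ l, (nn H / kk S T k l + nn H / tt S T k l) ≤
      16 * Fintype.card ι * Real.exp ((1 / 2 + 1 / 10 ^ 11) * Real.log (nn H))) →
    False

/-- **RED** (120 lines).  Uses MNN, PIN.  THEOREM W: for all `H` (`N = |H|`) and all finite families
with `S_i ∩ T_i = 0`, `n = |ι|`:
`n² exp((-1/2 + 10^(-11)) log N) ≤ ∑_{i,j} (1/k_ij + 1/t_ij)`.
Proof.  `c = 10^(-11)`, `L = log N ≥ 0`.  If `c L < log 2`: PIN (b) gives `k t ≤ N`, so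
`1/k + 1/t ≥ 2/√(k t) ≥ 2 N^(-1/2) ≥ exp(cL) N^(-1/2)`.  Otherwise suppose the contrary:
`∑_{i,j} (N/k + N/t) < n² E`, `E = exp((1/2 + c) L)`; `n ≥ 1`.  Let `J₀` be the set of `i` with
`|T_i| ≤ |S_i|` if it has at least `n/2` elements, otherwise its complement, and swap `S` and `T`
(`kk`, `tt` are symmetric under the swap).  So `n₁ = |J₀| ≥ n/2` and the sum over `J₀ × J₀` is
`< n² E ≤ 4 n₁² E`.  Markov: `J = {k ∈ J₀ : ∑_{l ∈ J₀} (N/k_kl + N/t_kl) ≤ 8 n₁ E}` has more than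
`n₁/2` elements, and for `k ∈ J` the sum over `l ∈ J` is `≤ 8 n₁ E ≤ 16 |J| E`.  MNN for the
family indexed by the subtype `J` (`Finset.sum_coe_sort`): contradiction. -/
def REDStmt : Prop :=
  ∀ (H : Type u) [AddCommGroup H] [Fintype H] (ι : Type) [Fintype ι] (S T : ι → AddSubgroup H),
    (∀ i, S i ⊓ T i = ⊥) →
    (Fintype.card ι : ℝ) ^ 2 * Real.exp ((-1 / 2 + 1 / 10 ^ 11) * Real.log (nn H)) ≤
      ∑ i, ∑ j, (1 / kk S T i j + 1 / tt S T i j)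

/-! ## Part 5: from subgroups to families of sets -/

/-- **FIB** (100 lines).  Fibres.  `A_i` in a coset of `S_i`, `B_i` in a coset of `T_i` (all
differences in `S_i` resp. `T_i`).  Then
(1) `|D_i ∩ D_j| ≤ k_ij |(A_i + B_j) ∩ (A_j + B_i)|`,
(2) `|D_i ∩ D_j| ≤ t_ij |(A_i - A_j) ∩ (B_i - B_j)|`, where `D_i = A_i - B_i`.
Proof.  For `d ∈ D_i ∩ D_j` choose `a ∈ A_i`, `b ∈ B_i`, `a' ∈ A_j`, `b' ∈ B_j` with
`a - b = d = a' - b'`.  (1) `x(d) = a + b' = a' + b ∈ (A_i + B_j) ∩ (A_j + B_i)`.  For fixed `x`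
fix one `d₀` with `x(d₀) = x` (with `a₀, b₀, a₀', b₀'`); for every other `d` in the fibre
`a - a₀ = b₀' - b' ∈ S_i ⊓ T_j` and `a' - a₀' = b₀ - b ∈ S_j ⊓ T_i`, and `d` is determined by the two
(`d = a - b`), so the fibre has at most `k_ij` elements.  (2) `g(d) = a - a' = b - b'`; in a fibre
`a - a₀ = a' - a₀' ∈ S_i ⊓ S_j`, `b - b₀ = b' - b₀' ∈ T_i ⊓ T_j`, `d = a - b` is determined.
(`Finset.card_le_mul_card_image` / `card_eq_sum_card_fiberwise`.) -/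
def FIBStmt : Prop :=
  ∀ (H : Type u) [AddCommGroup H] [Fintype H] [DecidableEq H] (ι : Type)
    (S T : ι → AddSubgroup H) (A B : ι → Finset H),
    (∀ i, ∀ x ∈ A i, ∀ y ∈ A i, x - y ∈ S i) → (∀ i, ∀ x ∈ B i, ∀ y ∈ B i, x - y ∈ T i) →
    ∀ i j,
    ((((A i - B i) ∩ (A j - B j)).card : ℝ) ≤
      kk S T i j * (((A i + B j) ∩ (A j + B i)).card : ℝ)) ∧
    ((((A i - B i) ∩ (A j - B j)).card : ℝ) ≤
      tt S T i j * (((A i - A j) ∩ (B i - B j)).card : ℝ))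

/-- **ENE** (120 lines).  Both packings and the energy argument (adapt
`Pool/Agent/Helper5_SD/En.lean`).  Let `A_i + B_i` be direct, `(A_i + B_j)`, `(A_j + B_k)` disjoint
for `i < k` and all `j`; `v i j ≥ 0` with
`v_ij |D_i ∩ D_j| ≤ |(A_i + B_j) ∩ (A_j + B_i)| + |(A_i - A_j) ∩ (B_i - B_j)|` and
`ρ |J|² ≤ ∑_{i,j ∈ J} v_ij` for all `J`.  Then `ρ (∑ |A_i||B_i|)² ≤ 2 n N²`.
Proof.  First packing: for fixed `i` the sets `W_ij = (A_i + B_j) ∩ (A_j + B_i)` are pairwise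
disjoint (`x` in `W_ij` and `W_ij'`, `j < j'`: `x ∈ (A_j + B_i) ∩ (A_i + B_j') = ∅`), so
`∑_j |W_ij| ≤ N`.  Second packing: for fixed `j` the sets `W'_ij = (A_i - A_j) ∩ (B_i - B_j)` are
pairwise disjoint: `g = a - a' = b - b'` in `W'_ij` and `g = a'' - a''' = b'' - b'''` in `W'_i'j`,
`i < i'`: `a - a' = b'' - b'''` with `a ∈ A_i`, `a' ∈ A_j`, `b'' ∈ B_i'`, `b''' ∈ B_j` gives
`a + b''' = a' + b''` in `(A_i + B_j) ∩ (A_j + B_i') = ∅`.  So `∑_{i,j} |W'_ij| ≤ n N`.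
Together `∑_{i,j} v_ij |D_i ∩ D_j| ≤ 2 n N`.  With `J_d = {i : d ∈ D_i}`:
`∑_{i,j} v_ij |D_i ∩ D_j| = ∑_d ∑_{i,j ∈ J_d} v_ij ≥ ρ ∑_d |J_d|² ≥ ρ (∑_d |J_d|)²/N` and
`∑_d |J_d| = ∑ |D_i| = ∑ |A_i||B_i|` (`card_sub_of_direct` in En.lean). -/
def ENEStmt : Prop :=
  ∀ (H : Type u) [AddCommGroup H] [Fintype H] [DecidableEq H] (n : ℕ) (A B : Fin n → Finset H)
    (v : Fin n → Fin n → ℝ) (ρ : ℝ),
    (∀ i, (A i + B i).card = (A i).card * (B i).card) →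
    (∀ i j k, i < k → Disjoint (A i + B j) (A j + B k)) →
    (∀ i j, 0 ≤ v i j) → 0 ≤ ρ →
    (∀ i j, v i j * (((A i - B i) ∩ (A j - B j)).card : ℝ) ≤
      (((A i + B j) ∩ (A j + B i)).card : ℝ) + (((A i - A j) ∩ (B i - B j)).card : ℝ)) →
    (∀ J : Finset (Fin n), ρ * (J.card : ℝ) ^ 2 ≤ ∑ i ∈ J, ∑ j ∈ J, v i j) →
    ρ * (∑ i, ((A i).card : ℝ) * (B i).card) ^ 2 ≤ 2 * n * nn H ^ 2

/-- **SGF** (60 lines).  Uses RED, FIB, ENE, PIN.  The theorem: with `N = |H|`, `c = 10^(-11)`: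
`(∑ |A_i||B_i|)² ≤ 2 n N^(5/2 - c)`.
Proof.  ENE with `v_ij = 1/k_ij + 1/t_ij` (FIB) and `ρ = exp((-1/2 + c) log N)` (RED for the family
restricted to the subtype `J`, `Finset.sum_coe_sort`); `N² = N^2`, divide by `ρ`. -/
def SGFStmt : Prop :=
  ∀ (H : Type u) [AddCommGroup H] [Fintype H] [DecidableEq H] (n : ℕ)
    (S T : Fin n → AddSubgroup H) (A B : Fin n → Finset H),
    (∀ i, S i ⊓ T i = ⊥) →
    (∀ i, ∀ x ∈ A i, ∀ y ∈ A i, x - y ∈ S i) → (∀ i, ∀ x ∈ B i, ∀ y ∈ B i, x - y ∈ T i) →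
    (∀ i, (A i + B i).card = (A i).card * (B i).card) →
    (∀ i j k, i < k → Disjoint (A i + B j) (A j + B k)) →
    (∑ i, ((A i).card : ℝ) * (B i).card) ^ 2 ≤
      2 * n * (Fintype.card H : ℝ) ^ (5 / 2 - 1 / 10 ^ 11 : ℝ)

end Pool.Agent.SGB
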